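import Pool.Agent.Helper68.QC.St1

/-!
# Part M of project QD, module KBH: holomorphic dependence on the torus
-/

open MeasureTheory Set Filter Topology Complex
open scoped ContDiff ComplexConjugate ENNReal

namespace Pool.Agent.Helper63.QC

open Pool.Agent.Helper68.QC

/-! ### linearity of the operators -/

section

variable {f g : ℝ × ℝ → ℂ}

theorem ck_add (hf : KB.SP f) (hg : KB.SP g) (k : ℤ × ℤ) :
    KB.ck (fun p => f p + g p) k = KB.ck f k + KB.ck g k := by
  unfold KB.ck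
  rw [← KB.mean_add ((KB.ek_sp _).mul hf).continuous ((KB.ek_sp _).mul hg).continuous]
  congr 1
  ext p; ring

theorem ck_smul (c : ℂ) (k : ℤ × ℤ) :
    KB.ck (fun p => c * f p) k = c * KB.ck f k := by
  unfold KB.ck
  rw [← KB.mean_const_mul]
  congr 1
  ext p; ring

theorem bk_add (hf : KB.SP f) (hg : KB.SP g) (k : ℤ × ℤ) :
    KB.bk (fun p => f p + g p) k = KB.bk f k + KB.bk g k := by
  unfold KB.bk
  split_ifs with h
  · simp
  · rw [ck_add hf hg, add_div]

theorem bk_smul (c : ℂ) (k : ℤ × ℤ) :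
    KB.bk (fun p => c * f p) k = c * KB.bk f k := by
  unfold KB.bk
  split_ifs with h
  · simp
  · rw [ck_smul, mul_div_assoc]

theorem Sol_add (hf : KB.SP f) (hg : KB.SP g) :
    KB.Sol (fun p => f p + g p) = fun p => KB.Sol f p + KB.Sol g p := by
  ext p
  unfold KB.Sol
  rw [← ((KB.bkek_fam hf).summable p).tsum_add ((KB.bkek_fam hg).summable p)]
  refine tsum_congr fun k => ?_
  rw [bk_add hf hg]; ring

theorem Sol_smul (c : ℂ) : KB.Sol (fun p => c * f p) = fun p => c * KB.Sol f p := by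
  ext p
  unfold KB.Sol
  rw [← tsum_mul_left]
  refine tsum_congr fun k => ?_
  rw [bk_smul]; ring

theorem Sop_add (hf : KB.SP f) (hg : KB.SP g) :
    KB.Sop (fun p => f p + g p) = fun p => KB.Sop f p + KB.Sop g p := by
  unfold KB.Sop
  rw [Sol_add hf hg, KB.dz_add (KB.Sol_sp hf) (KB.Sol_sp hg)]

theorem Sop_smul (hf : KB.SP f) (c : ℂ) :
    KB.Sop (fun p => c * f p) = fun p => c * KB.Sop f p := by
  unfold KB.Sop
  rw [Sol_smul, KB.dz_const_mul (KB.Sol_sp hf)]

end

/-- families which are polynomial in the parameter -/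
inductive PL : (ℂ → ℝ × ℝ → ℂ) → Prop
  | const (c : ℝ × ℝ → ℂ) (hc : KB.SP c) : PL (fun _ => c)
  | tmul (F : ℂ → ℝ × ℝ → ℂ) (hF : PL F) : PL (fun t p => t * F t p)
  | add (F G : ℂ → ℝ × ℝ → ℂ) (hF : PL F) (hG : PL G) : PL (fun t p => F t p + G t p)

theorem PL.sp {F : ℂ → ℝ × ℝ → ℂ} (h : PL F) (t : ℂ) : KB.SP (F t) := by
  induction h with
  | const c hc => exact hc
  | tmul F _ ih => exact ih.const_mul t
  | add F G _ _ ih1 ih2 => exact ih1.add ih2

theorem PL.mul_left {F : ℂ → ℝ × ℝ → ℂ} (h : PL F) {g : ℝ × ℝ → ℂ} (hg : KB.SP g) :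
    PL (fun t p => g p * F t p) := by
  induction h with
  | const c hc => exact PL.const _ (hg.mul hc)
  | tmul F _ ih =>
    have := PL.tmul _ ih
    convert this using 2
    funext p; ring
  | add F G _ _ ih1 ih2 =>
    have := PL.add _ _ ih1 ih2
    convert this using 2
    funext p; ring

theorem PL.Sop {F : ℂ → ℝ × ℝ → ℂ} (h : PL F) : PL (fun t => KB.Sop (F t)) := by
  induction h with
  | const c hc => exact PL.const _ (KB.Sop_sp hc)
  | tmul F hF ih =>
    have := PL.tmul _ ih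
    convert this using 2 with t
    exact Sop_smul (hF.sp t) t
  | add F G hF hG ih1 ih2 =>
    have := PL.add _ _ ih1 ih2
    convert this using 2 with t
    exact Sop_add (hF.sp t) (hG.sp t)

theorem PL.Sol_diff {F : ℂ → ℝ × ℝ → ℂ} (h : PL F) (p : ℝ × ℝ) :
    Differentiable ℂ (fun t => KB.Sol (F t) p) := by
  induction h with
  | const c hc => exact differentiable_const _
  | tmul F hF ih =>
    have e : (fun t => KB.Sol (fun p => t * F t p) p) = fun t => t * KB.Sol (F t) p := by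
      funext t; rw [Sol_smul]
    rw [e]
    exact differentiable_id.mul ih
  | add F G hF hG ih1 ih2 =>
    have e : (fun t => KB.Sol (fun p => F t p + G t p) p) =
        fun t => KB.Sol (F t) p + KB.Sol (G t) p := by
      funext t; rw [Sol_add (hF.sp t) (hG.sp t)]
    rw [e]
    exact ih1.add ih2

theorem PL.mean_diff {F : ℂ → ℝ × ℝ → ℂ} (h : PL F) :
    Differentiable ℂ (fun t => KB.mean (F t)) := by
  induction h with
  | const c hc => exact differentiable_const _
  | tmul F hF ih =>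
    have e : (fun t => KB.mean (fun p => t * F t p)) = fun t => t * KB.mean (F t) := by
      funext t; rw [KB.mean_const_mul]
    rw [e]
    exact differentiable_id.mul ih
  | add F G hF hG ih1 ih2 =>
    have e : (fun t => KB.mean (fun p => F t p + G t p)) =
        fun t => KB.mean (F t) + KB.mean (G t) := by
      funext t; rw [KB.mean_add (hF.sp t).continuous (hG.sp t).continuous]
    rw [e]
    exact ih1.add ih2

theorem PL_bT {m₀ m₁ : ℝ × ℝ → ℂ} (h0 : KB.SP m₀) (h1 : KB.SP m₁) (n : ℕ) :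
    PL (fun t => KB.bT (fun p => m₀ p + t * m₁ p) n) := by
  induction n with
  | zero => exact PL.add _ _ (PL.const _ h0) (PL.tmul _ (PL.const _ h1))
  | succ n ih =>
    have a := ih.Sop
    have := PL.add _ _ (a.mul_left h0) (PL.tmul _ (a.mul_left h1))
    convert this using 2 with t
    funext p
    simp only [KB.bT]
    ring

/-! ### bounds for the derivatives -/

theorem Bd_mono {M M' : ℝ} (hM : M ≤ M') : ∀ (s : ℕ) (f : ℝ × ℝ → ℂ), Bd s M f → Bd s M' f
  | 0, _, h => fun p => (h p).trans hM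
  | s + 1, _, h => ⟨fun p => (h.1 p).trans hM, Bd_mono hM s _ h.2.1, Bd_mono hM s _ h.2.2⟩

theorem exists_Bd : ∀ (s : ℕ) (f : ℝ × ℝ → ℂ), KB.SP f → ∃ M : ℝ, 0 ≤ M ∧ Bd s M f
  | 0, _, hf => hf.bounded
  | s + 1, f, hf => by
    obtain ⟨M1, h1, b1⟩ := hf.bounded
    obtain ⟨M2, h2, b2⟩ := exists_Bd s (KB.D1 f) (hf.hD _)
    obtain ⟨M3, h3, b3⟩ := exists_Bd s (KB.D2 f) (hf.hD _)
    refine ⟨M1 + M2 + M3, by linarith, fun p => (b1 p).trans (by linarith), ?_, ?_⟩
    · exact Bd_mono (by linarith) s _ b2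
    · exact Bd_mono (by linarith) s _ b3

theorem Bd_comb {M₀ M₁ R : ℝ} (hM1 : 0 ≤ M₁) {t : ℂ} (ht : ‖t‖ ≤ R) :
    ∀ (s : ℕ) (f g : ℝ × ℝ → ℂ), KB.SP f → KB.SP g → Bd s M₀ f → Bd s M₁ g →
      Bd s (M₀ + R * M₁) (fun p => f p + t * g p)
  | 0, f, g, _, _, bf, bg => fun p => by
    refine (norm_add_le _ _).trans ?_
    rw [norm_mul]
    have := mul_le_mul ht (bg p) (norm_nonneg _) ((norm_nonneg _).trans ht)
    linarith [bf p]
  | s + 1, f, g, hf, hg, bf, bg => by
    refine ⟨fun p => ?_, ?_, ?_⟩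
    · refine (norm_add_le _ _).trans ?_
      rw [norm_mul]
      have := mul_le_mul ht (bg.1 p) (norm_nonneg _) ((norm_nonneg _).trans ht)
      linarith [bf.1 p]
    · have e : KB.D1 (fun p => f p + t * g p) = fun p => KB.D1 f p + t * KB.D1 g p := by
        rw [KB.D1, KB.D_add _ hf (hg.const_mul t), KB.D_const_mul _ hg]
      rw [e]
      exact Bd_comb hM1 ht s _ _ (hf.hD _) (hg.hD _) bf.2.1 bg.2.1
    · have e : KB.D2 (fun p => f p + t * g p) = fun p => KB.D2 f p + t * KB.D2 g p := by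
        rw [KB.D2, KB.D_add _ hf (hg.const_mul t), KB.D_const_mul _ hg]
      rw [e]
      exact Bd_comb hM1 ht s _ _ (hf.hD _) (hg.hD _) bf.2.2 bg.2.2

/-- holomorphy is local -/
theorem diff_of_balls {V : Set ℂ} (hV : IsOpen V) {g : ℂ → ℂ}
    (h : ∀ R : ℝ, 0 < R → DifferentiableOn ℂ g (V ∩ Metric.ball 0 R)) : DifferentiableOn ℂ g V := by
  intro t ht
  have hR : (0 : ℝ) < ‖t‖ + 1 := by positivity
  have hmem : t ∈ V ∩ Metric.ball 0 (‖t‖ + 1) := ⟨ht, by rw [mem_ball_zero_iff]; linarith⟩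
  have hopen : IsOpen (V ∩ Metric.ball 0 (‖t‖ + 1)) := hV.inter Metric.isOpen_ball
  exact ((h _ hR).differentiableAt (hopen.mem_nhds hmem)).differentiableWithinAt

theorem pKBH (hKBU : StKBU) (hPBL : StPBL) : Pool.Agent.Helper68.QC.StKBH := by
  intro k hk0 hk m₀ m₁ V h0 h1 hV hb
  obtain ⟨M₀, hM0, b0⟩ := exists_Bd 4 m₀ h0
  obtain ⟨M₁, hM1, b1⟩ := exists_Bd 4 m₁ h1
  have hsp : ∀ t : ℂ, KB.SP (fun p => m₀ p + t * m₁ p) := fun t => h0.add (h1.const_mul t)
  have hbound : ∀ R : ℝ, ∃ C : ℝ, ∀ t ∈ V ∩ Metric.ball 0 R, ∀ m : ℕ,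
      ∑ n ∈ Finset.range m, KB.A 4 (KB.bT (fun p => m₀ p + t * m₁ p) n) ≤ C := by
    intro R
    obtain ⟨C, hC⟩ := hKBU k hk0 hk 4 (M₀ + R * M₁)
    refine ⟨C, fun t ht m => hC _ (hsp t) (hb t ht.1) ?_ m⟩
    have htR : ‖t‖ ≤ R := by
      have := ht.2
      rw [mem_ball_zero_iff] at this
      exact this.le
    exact Bd_comb hM1 htR 4 _ _ h0 h1 b0 b1
  constructor
  · apply diff_of_balls hV
    intro R _
    obtain ⟨C, hC⟩ := hbound R
    refine hPBL (V ∩ Metric.ball 0 R) C
      (fun N t => ∑ n ∈ Finset.range N, KB.mean (KB.bT (fun p => m₀ p + t * m₁ p) n)) _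
      (hV.inter Metric.isOpen_ball) ?_ ?_ ?_
    · intro N
      apply Differentiable.differentiableOn
      exact Differentiable.fun_sum fun n _ => (PL_bT h0 h1 n).mean_diff
    · intro N t ht
      refine (norm_sum_le _ _).trans (le_trans (Finset.sum_le_sum fun n _ => ?_) (hC t ht N))
      have h2 := KB.norm_mean_le_N (KB.bT_sp (hsp t) n).continuous
      exact h2.trans (KB.N_le_A 4 _)
    · intro t ht
      have hF := KB.bT_fam (hsp t) hk0 hk (hb t ht.1)
      have s1 : Summable fun n => KB.mean (KB.bT (fun p => m₀ p + t * m₁ p) n) := by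
        refine (hF.sum 0).of_norm_bounded fun n => ?_
        exact KB.norm_mean_le_N (hF.sp n).continuous
      have e : KB.kap (fun p => m₀ p + t * m₁ p) 1 =
          ∑' n, KB.mean (KB.bT (fun p => m₀ p + t * m₁ p) n) := by
        unfold KB.kap
        simp
      rw [e]
      exact s1.hasSum.tendsto_sum_nat
  · intro p
    apply diff_of_balls hV
    intro R _
    obtain ⟨C, hC⟩ := hbound R
    refine hPBL (V ∩ Metric.ball 0 R) (4 * KB.W0 * C)
      (fun N t => ∑ n ∈ Finset.range N, KB.Sol (KB.bT (fun p => m₀ p + t * m₁ p) n) p) _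
      (hV.inter Metric.isOpen_ball) ?_ ?_ ?_
    · intro N
      apply Differentiable.differentiableOn
      exact Differentiable.fun_sum fun n _ => (PL_bT h0 h1 n).Sol_diff p
    · intro N t ht
      refine (norm_sum_le _ _).trans ?_
      have h2 : ∑ n ∈ Finset.range N, ‖KB.Sol (KB.bT (fun p => m₀ p + t * m₁ p) n) p‖ ≤
          ∑ n ∈ Finset.range N, 4 * KB.W0 * KB.A 4 (KB.bT (fun p => m₀ p + t * m₁ p) n) :=
        Finset.sum_le_sum fun n _ => KB.norm_Sol_le (KB.bT_sp (hsp t) n) p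
      refine h2.trans ?_
      rw [← Finset.mul_sum]
      exact mul_le_mul_of_nonneg_left (hC t ht N) (by have := KB.W0_nonneg; positivity)
    · intro t ht
      have hF := KB.bT_fam (hsp t) hk0 hk (hb t ht.1)
      have s1 := (KB.PS_fam hF zero_le_one le_rfl).summable p
      have s2 := s1.hasSum.tendsto_sum_nat
      simp only [Complex.ofReal_one, one_pow, one_mul] at s2
      have e : KB.PS (KB.bT (fun p => m₀ p + t * m₁ p)) 1 p =
          ∑' n, KB.Sol (KB.bT (fun p => m₀ p + t * m₁ p) n) p := by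
        unfold KB.PS
        simp
      rw [e]
      exact s2

end Pool.Agent.Helper63.QC
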