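import Pool.Agent.Helper68.QC.St1

/-!
# Part M of project QD, module KBS: the explicit solution on the torus
-/

open MeasureTheory Set Filter Topology Complex
open scoped ContDiff ComplexConjugate ENNReal

namespace Pool.Agent.Helper63.QC

open Pool.Agent.Helper68.QC

theorem pKBS : Pool.Agent.Helper68.QC.StKBS := by
  intro k hk0 hk μ hμ hb
  have hF := KB.bT_fam hμ hk0 hk hb
  have hΦ : KB.SP (KB.PS (KB.bT μ) 1) := KB.PS_sp hF zero_le_one le_rfl
  set Φ := KB.PS (KB.bT μ) 1 with hΦdef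
  have hbel : ∀ p, KB.kap μ 1 + KB.dzb Φ p = μ p * (1 + KB.dz Φ p) := by
    intro p
    have := KB.bel1 hμ hk0 hk hb zero_le_one le_rfl p
    simpa using this
  refine ⟨hΦ, hbel, ?_, ?_⟩
  · obtain ⟨κ', Φ', hΦ', hbel', hne'⟩ := KB.beltrami hμ hk0 hk hb
    have hr : KB.SP (fun p => Φ p - Φ' p) := hΦ.sub hΦ'
    have h1 : ∀ p, (KB.kap μ 1 - κ') + KB.dzb (fun p => Φ p - Φ' p) p =
        μ p * KB.dz (fun p => Φ p - Φ' p) p := by
      intro p
      rw [KB.dzb_sub hΦ hΦ', KB.dz_sub hΦ hΦ']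
      simp only
      linear_combination hbel p - hbel' p
    have h2 := (KB.uniq hk0 hk hr hμ hb h1).2
    intro p
    have h3 := h2 p
    rw [KB.dz_sub hΦ hΦ'] at h3
    have h4 : KB.dz Φ p = KB.dz Φ' p := sub_eq_zero.1 h3
    rw [h4]
    exact hne' p
  · have hN1 := KB.N_sq_const_add hΦ.hdzb.continuous (KB.mean_dzb hΦ) (KB.kap μ 1)
    have hN2 := KB.N_sq_const_add hΦ.hdz.continuous (KB.mean_dz hΦ) 1
    have hc : Continuous (fun p => 1 + KB.dz Φ p) := continuous_const.add hΦ.hdz.continuous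
    have hle : KB.N (fun p => KB.kap μ 1 + KB.dzb Φ p) ≤ k * KB.N (fun p => 1 + KB.dz Φ p) := by
      have e : (fun p => KB.kap μ 1 + KB.dzb Φ p) = fun p => μ p * (1 + KB.dz Φ p) := funext hbel
      rw [e]
      exact KB.N_mul_le hc hμ.continuous hk0 hb
    have hsq : KB.N (fun p => KB.kap μ 1 + KB.dzb Φ p) ^ 2 ≤
        (k * KB.N (fun p => 1 + KB.dz Φ p)) ^ 2 := pow_le_pow_left₀ (KB.N_nonneg _) hle 2
    rw [hN1, mul_pow, hN2, ← KB.N_dz hΦ, norm_one] at hsq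
    have hx := sq_nonneg (KB.N (KB.dz Φ))
    have hk2 : k ^ 2 ≤ 1 := by nlinarith
    have h5 : ‖KB.kap μ 1‖ ^ 2 ≤ k ^ 2 := by nlinarith
    exact (sq_le_sq₀ (norm_nonneg _) hk0).1 h5

end Pool.Agent.Helper63.QC
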